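import Pool.Agent.Helper92.BW.GoalsA

/-!
Packet BW-DEP: the message of `v` depends only on the ancestors of `v`.
-/

namespace Pool.Agent.Helper94.BW

open MeasureTheory Pool.Agent.Helper92.BW
open scoped ENNReal

theorem iter_ge {par : ℕ → ℕ} (h : ∀ i, i ≤ par i) (t i : ℕ) : i ≤ par^[t] i := by
  induction t generalizing i with
  | zero => exact le_rfl
  | succ t ih =>
    rw [Function.iterate_succ_apply]
    exact (h i).trans (ih (par i))

theorem abv_cases {n : ℕ} {par : ℕ → ℕ} (h : ∀ i, i ≤ par i) (h' : ∀ i < n, i < par i) (v j : Fin n)
    (hA : Abv par v j) : j = v ∨ (v < j ∧ Abv par (par v) j) := by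
  obtain ⟨t, ht⟩ := hA
  cases t with
  | zero =>
    left
    apply Fin.ext
    exact ht.symm
  | succ t =>
    right
    rw [Function.iterate_succ_apply] at ht
    refine ⟨?_, t, ht⟩
    have h1 := iter_ge h t (par v)
    have h2 := h' v v.2
    show v.val < j.val
    omega

theorem dep : DepStmt := by
  intro n ι _ par low a s τ hch v
  obtain ⟨h1, h2, h3⟩ := hch
  suffices H : ∀ (k : ℕ) (v : Fin n), v.val = k → ∀ u u' : Fin n → ℝ,
      (∀ j : Fin n, v < j → Abv par (par v) j → u j = u' j) →
      msg par low a s τ v u = msg par low a s τ v u' from H v.val v rfl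
  intro k
  induction k using Nat.strong_induction_on with
  | _ k ih =>
    intro v hv u u' hu
    rw [msg_eq, msg_eq]
    apply lintegral_congr
    intro t
    have hup : ∀ j : Fin n, Abv par v j →
        Function.update u v t j = Function.update u' v t j := by
      intro j hj
      rcases abv_cases h1 h2 v j hj with h | ⟨h, h'⟩
      · rw [h, Function.update_self, Function.update_self]
      · rw [Function.update_of_ne (ne_of_gt h), Function.update_of_ne (ne_of_gt h)]
        exact hu j h h'
    congr 1
    · apply Finset.prod_congr rfl
      intro r hr
      rw [Finset.mem_filter] at hr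
      have e : ip (a r) (Function.update u v t) = ip (a r) (Function.update u' v t) := by
        unfold ip
        apply Finset.sum_congr rfl
        intro j _
        by_cases h0 : a r j = 0
        · rw [h0, zero_mul, zero_mul]
        · have h4 := h3 r j h0
          rw [hr.2] at h4
          rw [hup j h4]
      unfold ind
      rw [e]
    · apply Finset.prod_congr rfl
      intro c _
      have hc1 : c.1.val < k := by
        have := c.2.1
        rw [← hv]
        exact this
      apply ih c.1.val hc1 c.1 rfl
      intro j _ hj
      rw [c.2.2] at hj
      exact hup j hj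

end Pool.Agent.Helper94.BW
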